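import Pool.Agent.MWE.Stmts

/-!
# Squad MWE, row FAB: basic facts about the family
-/

set_option autoImplicit false

namespace Pool.Agent.MWE.H60

open Pool.Agent.Helper14_MV Pool.Agent.Helper2_MV Pool.Agent.MVD Pool.Agent.MWE

/-- the permutations of `0, 1, 2, 3` -/
def perms : List (List ℕ) :=
  [[0, 1, 2, 3], [0, 1, 3, 2], [0, 2, 1, 3], [0, 2, 3, 1], [0, 3, 1, 2], [0, 3, 2, 1], [1, 0,
  2, 3], [1, 0, 3, 2], [1, 2, 0, 3], [1, 2, 3, 0], [1, 3, 0, 2], [1, 3, 2, 0], [2, 0, 1, 3],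
  [2, 0, 3, 1], [2, 1, 0, 3], [2, 1, 3, 0], [2, 3, 0, 1], [2, 3, 1, 0], [3, 0, 1, 2], [3, 0,
  2, 1], [3, 1, 0, 2], [3, 1, 2, 0], [3, 2, 0, 1], [3, 2, 1, 0]]

set_option maxRecDepth 100000 in
theorem mem_perms : ∀ a b c d : Fin 4, ([a.1, b.1, c.1, d.1] : List ℕ).Nodup →
    [a.1, b.1, c.1, d.1] ∈ perms := by decide +kernel

theorem perm_mem {s : List ℕ} (h : s.Perm [0, 1, 2, 3]) : s ∈ perms := by
  have hl : s.length = 4 := h.length_eq
  obtain ⟨a, b, c, d, rfl⟩ : ∃ a b c d, s = [a, b, c, d] := by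
    match s, hl with
    | [a, b, c, d], _ => exact ⟨a, b, c, d, rfl⟩
  have hm : ∀ x ∈ [a, b, c, d], x < 4 := by
    intro x hx
    have h1 := h.mem_iff.1 hx
    simp only [List.mem_cons, List.not_mem_nil, or_false] at h1
    omega
  have hn : ([a, b, c, d] : List ℕ).Nodup := h.nodup_iff.2 (by decide)
  exact mem_perms ⟨a, hm a (by simp)⟩ ⟨b, hm b (by simp)⟩ ⟨c, hm c (by simp)⟩
    ⟨d, hm d (by simp)⟩ hn

set_option maxRecDepth 100000 in
theorem xs_two : ∀ s ∈ perms, ∀ i j : Fin 4, i < j → Xs i.1 j.1 s = [0, 3] ∨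
    Xs i.1 j.1 s = [3, 0] := by
  decide +kernel

set_option maxRecDepth 100000 in
theorem xs_inj : ∀ s ∈ perms, ∀ s' ∈ perms, (∀ i j : Fin 4, i < j →
    Xs i.1 j.1 s = Xs i.1 j.1 s') → s = s' := by
  decide +kernel

theorem fab (h1 : FprStmt) : FabStmt := by
  intro β m R c hc hR hE
  refine ⟨fun s hs => ⟨hs, fun i k j hik hkj hj => ?_⟩, fun s w w' hw hww => ?_,
    fun s s' w hs hs' => ?_⟩
  · rw [(h1 m R c s hc hR hs).1 i k j hik hkj hj]
    exact RR.refl _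
  · exact ⟨hw.1, fun i k j hik hkj hj => β.trans (hw.2 i k j hik hkj hj) (RR.sub _ hww)⟩
  · have m1 := perm_mem hs.1
    have m2 := perm_mem hs'.1
    refine xs_inj s m1 s' m2 fun i j hij' => ?_
    obtain ⟨i, hi⟩ := i
    obtain ⟨j, hj⟩ := j
    have hij : i < j := hij'
    have h2 : RR β (Ex R c (Xs i j s)) (Ex R c (Xs i j s')) :=
      β.trans (hs.2 i i j le_rfl hij (by omega)) (RR.symm (hs'.2 i i j le_rfl hij (by omega)))
    rcases xs_two s m1 ⟨i, hi⟩ ⟨j, hj⟩ hij' with e1 | e1 <;>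
      rcases xs_two s' m2 ⟨i, hi⟩ ⟨j, hj⟩ hij' with e2 | e2 <;>
      simp only at e1 e2 ⊢
    · rw [e1, e2]
    · rw [e1, e2] at h2
      exact absurd h2 hE
    · rw [e1, e2] at h2
      exact absurd (RR.symm h2) hE
    · rw [e1, e2]

end Pool.Agent.MWE.H60
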